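import Mathlib
import Pool.Agent.Helper947.Defs
import Pool.Agent.Helper947.T15
import Pool.Agent.Helper947.T19

namespace Pool.Agent.Results.MP_c10209_ag.CMNotDeforming

open Pool.Agent.Helper947

/-- For `G = SL₂⁴`, `P = B`, `G/B = (P¹)⁴`, there is a set `S` of elements of the Weyl group
`(ℤ/2)⁴` (subsets of `{0,1,2,3}`), namely `S = {{0,1},{1,2},{2,3}}`, such that the union `X_S` of
Schubert varieties is Cohen–Macaulay but does not deform to an irreducible variety. -/
theorem result : ∃ S : Finset (Finset (Fin 4)),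
    IsCohenMacaulay (XS S) ∧ ¬ DeformsToIrreducible (XS.ι S) :=
  ⟨{{0, 1}, {1, 2}, {2, 3}}, isCohenMacaulay_XS, not_deforms⟩

end Pool.Agent.Results.MP_c10209_ag.CMNotDeforming
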